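import Pool.Agent.R474.CE.StmQ

set_option autoImplicit false

namespace Pool.Agent.R474.CE.QPUMP

/-- closure properties of the class -/
structure Cl (C : Set Str) (b : ℕ) : Prop where
  pos : ∀ x ∈ C, Pos x
  loc : ∀ x : Str, Pos x → b ≤ x.n →
    (∀ k, k + b ≤ x.n → ∃ z ∈ C, ∃ l, l + b ≤ z.n ∧ Win b x k z l) → x ∈ C
  glue : ∀ x ∈ C, ∀ z ∈ C, b ≤ x.n → b ≤ z.n → Win b x (x.n - b) z 0 → ∃ y ∈ C, Amal b x z y
  res : ∀ x ∈ C, ∀ k m, k + m ≤ x.n → win x k m ∈ C

def yy (y : Str) (L : ℕ) (e : Bool) : Str :=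
  ⟨y.n, fun i j => y.R i j || (y.R i 0 && y.R L j && (e || !(decide (i = 0 ∧ j = L))))⟩

theorem yyR (y : Str) (L : ℕ) (e : Bool) (i j : ℕ) : (yy y L e).R i j = true ↔
    (y.R i j = true ∨ (y.R i 0 = true ∧ y.R L j = true ∧ (e = true ∨ ¬ (i = 0 ∧ j = L)))) := by
  simp only [yy, Bool.or_eq_true, Bool.and_eq_true, Bool.not_eq_true', decide_eq_false_iff_not]
  tauto

theorem yyPos (y : Str) (L : ℕ) (e : Bool) (hL : L + 1 = y.n) (hy : Pos y)
    (hi : y.R L 0 = false) : Pos (yy y L e) := by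
  obtain ⟨hr, ha, ht⟩ := hy
  have hno : ∀ j < y.n, y.R L j = true → y.R j 0 = true → False := by
    intro j hj h1 h2
    have := ht L (by omega) j hj 0 (by omega) h1 h2
    rw [this] at hi
    exact absurd hi (by decide)
  refine ⟨fun i hi' => (yyR y L e i i).2 (Or.inl (hr i hi')), ?_, ?_⟩
  · intro i hi' j hj hij h1
    by_contra hcon
    have h2 : (yy y L e).R j i = true := by simpa using hcon
    change i < y.n at hi'
    change j < y.n at hj
    rw [yyR] at h1 h2
    rcases h1 with h1 | ⟨h1, h1', h1''⟩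
    · rcases h2 with h2 | ⟨h2, h2', h2''⟩
      · have := ha i hi' j hj hij h1
        rw [this] at h2
        exact absurd h2 (by decide)
      · exact hno i hi' h2' (ht i hi' j hj 0 (by omega) h1 h2)
    · rcases h2 with h2 | ⟨h2, h2', h2''⟩
      · exact hno j hj h1' (ht j hj i hi' 0 (by omega) h2 h1)
      · exact hno i hi' h2' h1
  · intro i hi' j hj k hk h1 h2
    change i < y.n at hi'
    change j < y.n at hj
    change k < y.n at hk
    rw [yyR] at h1 h2 ⊢
    rcases h1 with h1 | ⟨h1, h1', h1''⟩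
    · rcases h2 with h2 | ⟨h2, h2', h2''⟩
      · exact Or.inl (ht i hi' j hj k hk h1 h2)
      · refine Or.inr ⟨ht i hi' j hj 0 (by omega) h1 h2, h2', ?_⟩
        rcases h2'' with h2'' | h2''
        · exact Or.inl h2''
        · refine Or.inr ?_
          rintro ⟨rfl, rfl⟩
          by_cases hj0 : j = 0
          · exact h2'' ⟨hj0, rfl⟩
          · have := ha 0 hi' j hj (Ne.symm hj0) h1
            rw [this] at h2
            exact absurd h2 (by decide)
    · rcases h2 with h2 | ⟨h2, h2', h2''⟩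
      · refine Or.inr ⟨h1, ht L (by omega) j hj k hk h1' h2, ?_⟩
        rcases h1'' with h1'' | h1''
        · exact Or.inl h1''
        · refine Or.inr ?_
          rintro ⟨rfl, rfl⟩
          by_cases hjL : j = k
          · exact h1'' ⟨rfl, hjL⟩
          · have := ha j hj k hk hjL h2
            rw [this] at h1'
            exact absurd h1' (by decide)
      · exact (hno j hj h1' h2).elim

theorem gen (C : Set Str) (b : ℕ) (hb : 1 ≤ b) (h : Cl C b) (m : ℕ) (u u' : Str)
    (hu : u ∈ C) (hu' : u' ∈ C) (hn : u.n = m) (hn' : u'.n = m)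
    (hag : ∀ s < m, ∀ t < m, ¬ (s = 0 ∧ t = m - 1) → ¬ (s = m - 1 ∧ t = 0) → u.R s t = u'.R s t)
    (h1 : u.R 0 (m - 1) = false) (h2 : u.R (m - 1) 0 = false) (h3 : u'.R 0 (m - 1) = true)
    (p q : ℕ) (hp : 1 ≤ p) (hq : 1 ≤ q) (hp' : p + b < m) (hq' : q + b < m)
    (hw : Win b u p u q)
    (hal : ∀ w < b, u.R 0 (p + w) = u.R 0 (q + w))
    (hga : ∀ w < b, u.R (p + w) 0 = u.R (q + w) 0)
    (hde : ∀ w < b, u.R (m - 1) (p + w) = u.R (m - 1) (q + w)) :
    FreeP C (p + (m - q)) := by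
  obtain ⟨hPr, hPa, hPt⟩ := h.pos u hu
  obtain ⟨hPr', hPa', hPt'⟩ := h.pos u' hu'
  rw [hn] at hPr hPa hPt
  rw [hn'] at hPr' hPa' hPt'
  obtain ⟨y, hy, hA⟩ := h.glue (win u 0 (p + b)) (h.res u hu 0 (p + b) (by omega))
    (win u q (m - q)) (h.res u hu q (m - q) (by omega)) (by simp only [win]; omega)
    (by simp only [win]; omega) (by
      intro s hs t ht
      have h5 := hw s hs t ht
      simp only [win, Nat.add_sub_cancel, Nat.zero_add]
      exact h5)
  obtain ⟨hyn, hx, hz, hc1, hc2⟩ := hA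
  simp only [win, Nat.add_sub_cancel, Nat.zero_add] at hyn hc1 hc2
  have hyN : y.n = p + (m - q) := by omega
  have fx : ∀ s < p + b, ∀ t < p + b, y.R s t = u.R s t := by
    intro s hs t ht
    have h5 := hx s hs t ht
    simp only [win, Nat.zero_add] at h5
    exact h5
  have fz : ∀ s < m - q, ∀ t < m - q, y.R (p + s) (p + t) = u.R (q + s) (q + t) := by
    intro s hs t ht
    have h5 := hz s hs t ht
    simp only [win, Nat.zero_add, Nat.add_sub_cancel] at h5
    exact h5
  obtain ⟨l, hl⟩ : ∃ l, l = m - q - 1 := ⟨_, rfl⟩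
  have hql : q + l = m - 1 := by omega
  have hlm : l < m - q := by omega
  have F2a : ∀ i < p + b, y.R i 0 = true → u.R i 0 = true := by
    intro i hi h5
    rw [fx i hi 0 (by omega)] at h5
    exact h5
  have F2b : ∀ i < m - q, y.R (p + i) 0 = true → u.R (q + i) 0 = true := by
    intro i hi h5
    obtain ⟨w, hw', h6, h7⟩ := hc2 0 (by omega) i hi h5
    rw [hga w hw'] at h7
    exact hPt (q + i) (by omega) (q + w) (by omega) 0 (by omega) h6 h7
  have F3a : ∀ j < p + b, y.R (p + l) j = true → u.R (m - 1) j = true := by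
    intro j hj h5
    obtain ⟨w, hw', h6, h7⟩ := hc2 j hj l hlm h5
    rw [hql, ← hde w hw'] at h6
    exact hPt (m - 1) (by omega) (p + w) (by omega) j (by omega) h6 h7
  have F3b : ∀ j < m - q, y.R (p + l) (p + j) = true → u.R (m - 1) (q + j) = true := by
    intro j hj h5
    rw [fz l hlm j hj, hql] at h5
    exact h5
  have F1 : y.R 0 (p + l) = false := by
    by_contra hcon
    have h5 : y.R 0 (p + l) = true := by simpa using hcon
    obtain ⟨w, hw', h6, h7⟩ := hc1 0 (by omega) l hlm h5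
    rw [hal w hw'] at h6
    rw [hql] at h7
    have h8 := hPt 0 (by omega) (q + w) (by omega) (m - 1) (by omega) h6 h7
    rw [h8] at h1
    exact absurd h1 (by decide)
  have F0 : y.R (p + l) 0 = false := by
    by_contra hcon
    have h5 : y.R (p + l) 0 = true := by simpa using hcon
    have h6 := F3a 0 (by omega) h5
    rw [h6] at h2
    exact absurd h2 (by decide)
  have key : ∀ i < m, ∀ j < m, ¬ (i = 0 ∧ j = m - 1) → ¬ (i = m - 1 ∧ j = 0) →
      u.R i 0 = true → u.R (m - 1) j = true → u.R i j = true := by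
    intro i hi j hj hn1 hn2 h5 h6
    have hi1 : i ≠ m - 1 := by
      rintro rfl
      rw [h5] at h2
      exact absurd h2 (by decide)
    have hj1 : j ≠ 0 := by
      rintro rfl
      rw [h6] at h2
      exact absurd h2 (by decide)
    rw [hag i hi j hj hn1 hn2]
    rw [hag i hi 0 (by omega) (by omega) (by omega)] at h5
    rw [hag (m - 1) (by omega) j hj (by omega) (by omega)] at h6
    exact hPt' i hi 0 (by omega) j hj h5
      (hPt' 0 (by omega) (m - 1) (by omega) j hj h3 h6)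
  have near : ∀ (e : Bool) (k : ℕ), k + b ≤ y.n → Win b (yy y (p + l) e) k y k := by
    intro e k hk s hs t ht
    rw [Bool.eq_iff_iff, yyR]
    constructor
    · rintro (h5 | ⟨h5, h6, -⟩)
      · exact h5
      · rcases Nat.lt_or_ge k p with hkp | hkp
        · rw [fx (k + s) (by omega) (k + t) (by omega)]
          exact key _ (by omega) _ (by omega) (by omega) (by omega)
            (F2a _ (by omega) h5) (F3a _ (by omega) h6)
        · obtain ⟨i, hi⟩ : ∃ i, k + s = p + i := ⟨k + s - p, by omega⟩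
          obtain ⟨j, hj⟩ : ∃ j, k + t = p + j := ⟨k + t - p, by omega⟩
          rw [hi] at h5 ⊢
          rw [hj] at h6 ⊢
          rw [fz i (by omega) j (by omega)]
          exact key _ (by omega) _ (by omega) (by omega) (by omega)
            (F2b _ (by omega) h5) (F3b _ (by omega) h6)
    · intro h5
      exact Or.inl h5
  have mem : ∀ e : Bool, yy y (p + l) e ∈ C := by
    intro e
    refine h.loc _ (yyPos y (p + l) e (by omega) (h.pos y hy) F0) ?_ ?_
    · change b ≤ y.n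
      omega
    · intro k hk
      exact ⟨y, hy, k, hk, near e k hk⟩
  have hlast : p + (m - q) - 1 = p + l := by omega
  refine ⟨yy y (p + l) false, mem false, yy y (p + l) true, mem true, hyN, hyN, ?_, Or.inl ?_⟩
  · intro s hs t ht hne
    left
    rw [hlast]
    by_contra hcon
    apply hne
    rw [Bool.eq_iff_iff, yyR, yyR]
    constructor
    · rintro (h5 | ⟨h5, h6, -⟩)
      · exact Or.inl h5
      · exact Or.inr ⟨h5, h6, Or.inl rfl⟩
    · rintro (h5 | ⟨h5, h6, -⟩)
      · exact Or.inl h5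
      · exact Or.inr ⟨h5, h6, Or.inr hcon⟩
  · rw [hlast]
    have hyr := (h.pos y hy).1
    have h5 : (yy y (p + l) true).R 0 (p + l) = true :=
      (yyR _ _ _ _ _).2 (Or.inr ⟨hyr 0 (by omega), hyr (p + l) (by omega), Or.inl rfl⟩)
    rw [h5]
    intro h6
    rw [yyR] at h6
    rcases h6 with h6 | ⟨-, -, h6⟩
    · rw [h6] at F1
      exact absurd F1 (by decide)
    · rcases h6 with h6 | h6
      · exact absurd h6 (by decide)
      · exact h6 ⟨rfl, rfl⟩

/-- conclusion -/
def Con (C : Set Str) (b m : ℕ) : Prop :=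
  (∃ m', b < m' ∧ m' < m ∧ m ≤ m' + KK b ∧ FreeP C m') ∧ ∃ m', m < m' ∧ FreeP C m'

theorem core (C : Set Str) (b : ℕ) (hb : 1 ≤ b) (h : Cl C b) (m : ℕ) (hm : KK b ≤ m) (u u' : Str)
    (hu : u ∈ C) (hu' : u' ∈ C) (hn : u.n = m) (hn' : u'.n = m)
    (hag : ∀ s < m, ∀ t < m, ¬ (s = 0 ∧ t = m - 1) → ¬ (s = m - 1 ∧ t = 0) → u.R s t = u'.R s t)
    (h1 : u.R 0 (m - 1) = false) (h2 : u.R (m - 1) 0 = false) (h3 : u'.R 0 (m - 1) = true) :
    Con C b m := by
  obtain ⟨Q, hQ⟩ : ∃ Q, Q = 2 ^ (b * b) * 8 ^ b := ⟨_, rfl⟩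
  have hKK : KK b = b + Q + 2 := by rw [KK, hQ]
  have hcard : Fintype.card ((Fin b → Fin b → Bool) × (Fin b → Bool) × (Fin b → Bool) ×
      (Fin b → Bool)) < Fintype.card (Fin (Q + 1)) := by
    have h8 : (8 : ℕ) ^ b = 2 ^ b * (2 ^ b * 2 ^ b) := by
      rw [← mul_pow, ← mul_pow]
      norm_num
    simp only [Fintype.card_prod, Fintype.card_fun, Fintype.card_fin, Fintype.card_bool]
    rw [hQ, h8, ← pow_mul]
    omega
  obtain ⟨s, t, hst, hf⟩ := Fintype.exists_ne_map_eq_of_card_lt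
    (fun s : Fin (Q + 1) => ((fun i j : Fin b => u.R (s + 1 + i) (s + 1 + j)),
      (fun i : Fin b => u.R 0 (s + 1 + i)), (fun i : Fin b => u.R (s + 1 + i) 0),
      (fun i : Fin b => u.R (m - 1) (s + 1 + i)))) hcard
  have main : ∀ s t : Fin (Q + 1), (s : ℕ) < t →
      (((fun i j : Fin b => u.R (s + 1 + i) (s + 1 + j)),
      (fun i : Fin b => u.R 0 (s + 1 + i)), (fun i : Fin b => u.R (s + 1 + i) 0),
      (fun i : Fin b => u.R (m - 1) (s + 1 + i))) :
        (Fin b → Fin b → Bool) × (Fin b → Bool) × (Fin b → Bool) × (Fin b → Bool)) =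
      (((fun i j : Fin b => u.R (t + 1 + i) (t + 1 + j)),
      (fun i : Fin b => u.R 0 (t + 1 + i)), (fun i : Fin b => u.R (t + 1 + i) 0),
      (fun i : Fin b => u.R (m - 1) (t + 1 + i)))) → Con C b m := by
    intro s t hlt hf
    simp only [Prod.mk.injEq] at hf
    obtain ⟨f1, f2, f3, f4⟩ := hf
    have g1 : Win b u (s + 1) u (t + 1) := by
      intro i hi j hj
      exact congrFun (congrFun f1 ⟨i, hi⟩) ⟨j, hj⟩
    have g1' : Win b u (t + 1) u (s + 1) := fun i hi j hj => (g1 i hi j hj).symm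
    have g2 : ∀ w < b, u.R 0 (s + 1 + w) = u.R 0 (t + 1 + w) := fun w hw => congrFun f2 ⟨w, hw⟩
    have g3 : ∀ w < b, u.R (s + 1 + w) 0 = u.R (t + 1 + w) 0 := fun w hw => congrFun f3 ⟨w, hw⟩
    have g4 : ∀ w < b, u.R (m - 1) (s + 1 + w) = u.R (m - 1) (t + 1 + w) :=
      fun w hw => congrFun f4 ⟨w, hw⟩
    have hs := s.2
    have ht := t.2
    refine ⟨⟨s + 1 + (m - (t + 1)), by omega, by omega, by omega, ?_⟩,
      ⟨t + 1 + (m - (s + 1)), by omega, ?_⟩⟩
    · exact gen C b hb h m u u' hu hu' hn hn' hag h1 h2 h3 (s + 1) (t + 1) (by omega) (by omega)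
        (by omega) (by omega) g1 g2 g3 g4
    · exact gen C b hb h m u u' hu hu' hn hn' hag h1 h2 h3 (t + 1) (s + 1) (by omega) (by omega)
        (by omega) (by omega) g1' (fun w hw => (g2 w hw).symm) (fun w hw => (g3 w hw).symm)
        (fun w hw => (g4 w hw).symm)
  rcases Nat.lt_trichotomy (s : ℕ) t with hlt | heq | hlt
  · exact main s t hlt hf
  · exact absurd (Fin.ext heq) hst
  · exact main t s hlt hf.symm

/-- reversal -/
def rev (x : Str) : Str := ⟨x.n, fun i j => x.R j i⟩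

theorem rev_rev (x : Str) : rev (rev x) = x := rfl

theorem posRev (x : Str) (h : Pos x) : Pos (rev x) := by
  obtain ⟨hr, ha, ht⟩ := h
  refine ⟨fun i hi => hr i hi, ?_, ?_⟩
  · intro i hi j hj hij h1
    exact ha j hj i hi (Ne.symm hij) h1
  · intro i hi j hj k hk h1 h2
    exact ht k hk j hj i hi h2 h1

theorem winRev (b : ℕ) (x : Str) (i : ℕ) (y : Str) (j : ℕ) (h : Win b x i y j) :
    Win b (rev x) i (rev y) j := fun s hs t ht => h t ht s hs

theorem clRev (C : Set Str) (b : ℕ) (h : Cl C b) : Cl {x | rev x ∈ C} b where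
  pos := by
    intro x hx
    exact posRev _ (h.pos (rev x) hx)
  loc := by
    intro x hx hb hk
    refine h.loc (rev x) (posRev x hx) hb ?_
    intro k hk'
    obtain ⟨z, hz, l, hl, hw⟩ := hk k hk'
    exact ⟨rev z, hz, l, hl, winRev b x k z l hw⟩
  glue := by
    intro x hx z hz hbx hbz hw
    obtain ⟨y, hy, h1, h2, h3, h4, h5⟩ := h.glue (rev x) hx (rev z) hz hbx hbz
      (winRev b x _ z _ hw)
    refine ⟨rev y, hy, h1, winRev _ _ _ _ _ h2, winRev _ _ _ _ _ h3, ?_, ?_⟩
    · intro s hs t ht h6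
      obtain ⟨w, hw', h7, h8⟩ := h5 s hs t ht h6
      exact ⟨w, hw', h8, h7⟩
    · intro s hs t ht h6
      obtain ⟨w, hw', h7, h8⟩ := h4 s hs t ht h6
      exact ⟨w, hw', h8, h7⟩
  res := by
    intro x hx k m hk
    exact h.res (rev x) hx k m hk

theorem freeRev (C : Set Str) (m : ℕ) (h : FreeP {x | rev x ∈ C} m) : FreeP C m := by
  obtain ⟨u, hu, u', hu', h1, h2, h3, h4⟩ := h
  refine ⟨rev u, hu, rev u', hu', h1, h2, ?_, ?_⟩
  · intro s hs t ht hne
    rcases h3 t ht s hs hne with h5 | h5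
    · exact Or.inr ⟨h5.2, h5.1⟩
    · exact Or.inl ⟨h5.2, h5.1⟩
  · exact h4.symm

theorem conRev (C : Set Str) (b m : ℕ) (h : Con {x | rev x ∈ C} b m) : Con C b m := by
  obtain ⟨⟨m1, h1, h2, h3, h4⟩, m2, h5, h6⟩ := h
  exact ⟨⟨m1, h1, h2, h3, freeRev C m1 h4⟩, m2, h5, freeRev C m2 h6⟩

/-- both versions of the core -/
theorem core2 (C : Set Str) (b : ℕ) (hb : 1 ≤ b) (h : Cl C b) (m : ℕ) (hm : KK b ≤ m)
    (u u' : Str) (hu : u ∈ C) (hu' : u' ∈ C) (hn : u.n = m) (hn' : u'.n = m)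
    (hag : ∀ s < m, ∀ t < m, ¬ (s = 0 ∧ t = m - 1) → ¬ (s = m - 1 ∧ t = 0) → u.R s t = u'.R s t)
    (h1 : u.R 0 (m - 1) = false) (h2 : u.R (m - 1) 0 = false)
    (h3 : u'.R 0 (m - 1) = true ∨ u'.R (m - 1) 0 = true) : Con C b m := by
  rcases h3 with h3 | h3
  · exact core C b hb h m hm u u' hu hu' hn hn' hag h1 h2 h3
  · refine conRev C b m (core {x | rev x ∈ C} b hb (clRev C b h) m hm (rev u) (rev u') hu hu'
      hn hn' ?_ h2 h1 h3)
    intro s hs t ht hn1 hn2
    exact hag t ht s hs (fun h5 => hn2 ⟨h5.2, h5.1⟩) (fun h5 => hn1 ⟨h5.2, h5.1⟩)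

/-- the structure without the extreme pair -/
def cut (x : Str) (m : ℕ) : Str :=
  ⟨x.n, fun i j => x.R i j && !(decide ((i = 0 ∧ j = m - 1) ∨ (i = m - 1 ∧ j = 0)))⟩

theorem cutR (x : Str) (m i j : ℕ) : (cut x m).R i j = true ↔
    (x.R i j = true ∧ ¬ ((i = 0 ∧ j = m - 1) ∨ (i = m - 1 ∧ j = 0))) := by
  simp only [cut, Bool.and_eq_true, Bool.not_eq_true', decide_eq_false_iff_not]

theorem cutPos (m : ℕ) (u u' : Str) (hm : 2 ≤ m) (hu : Pos u) (hu' : Pos u')
    (hn : u.n = m) (hn' : u'.n = m)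
    (hag : ∀ s < m, ∀ t < m, ¬ (s = 0 ∧ t = m - 1) → ¬ (s = m - 1 ∧ t = 0) → u.R s t = u'.R s t)
    (h1 : u.R 0 (m - 1) = false ∨ u'.R 0 (m - 1) = false)
    (h2 : u.R (m - 1) 0 = false ∨ u'.R (m - 1) 0 = false) : Pos (cut u m) := by
  obtain ⟨hr, ha, ht⟩ := hu
  obtain ⟨hr', ha', ht'⟩ := hu'
  rw [hn] at hr ha ht
  rw [hn'] at hr' ha' ht'
  refine ⟨?_, ?_, ?_⟩
  · intro i hi
    change i < u.n at hi
    exact (cutR u m i i).2 ⟨hr i (by omega), by omega⟩
  · intro i hi j hj hij h3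
    change i < u.n at hi
    change j < u.n at hj
    rw [cutR] at h3
    have h4 := ha i (by omega) j (by omega) hij h3.1
    simp only [cut, h4, Bool.false_and]
  · intro i hi j hj k hk h3 h4
    change i < u.n at hi
    change j < u.n at hj
    change k < u.n at hk
    rw [cutR] at h3 h4 ⊢
    refine ⟨ht i (by omega) j (by omega) k (by omega) h3.1 h4.1, ?_⟩
    have h5 := ht i (by omega) j (by omega) k (by omega) h3.1 h4.1
    obtain ⟨h3, h3'⟩ := h3
    obtain ⟨h4, h4'⟩ := h4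
    have h3a := h3
    have h4a := h4
    rw [hag i (by omega) j (by omega) (fun h => h3' (Or.inl h)) (fun h => h3' (Or.inr h))] at h3a
    rw [hag j (by omega) k (by omega) (fun h => h4' (Or.inl h)) (fun h => h4' (Or.inr h))] at h4a
    have h5a := ht' i (by omega) j (by omega) k (by omega) h3a h4a
    rintro (⟨rfl, rfl⟩ | ⟨rfl, rfl⟩)
    · rcases h1 with h1 | h1
      · rw [h5] at h1
        exact absurd h1 (by decide)
      · rw [h5a] at h1
        exact absurd h1 (by decide)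
    · rcases h2 with h2 | h2
      · rw [h5] at h2
        exact absurd h2 (by decide)
      · rw [h5a] at h2
        exact absurd h2 (by decide)

theorem all (C : Set Str) (b : ℕ) (hb : 1 ≤ b) (h : Cl C b) (m : ℕ) (hm : KK b ≤ m)
    (hF : FreeP C m) : Con C b m := by
  obtain ⟨u, hu, u', hu', hn, hn', hd, hx⟩ := hF
  have hbm : b + 2 ≤ m := by
    have : KK b = b + 2 ^ (b * b) * 8 ^ b + 2 := rfl
    have h5 : 0 < 2 ^ (b * b) * 8 ^ b := by positivity
    omega
  have hag : ∀ s < m, ∀ t < m, ¬ (s = 0 ∧ t = m - 1) → ¬ (s = m - 1 ∧ t = 0) →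
      u.R s t = u'.R s t := by
    intro s hs t ht h1 h2
    by_contra hcon
    rcases hd s hs t ht hcon with h5 | h5
    · exact h1 h5
    · exact h2 h5
  have hag' : ∀ s < m, ∀ t < m, ¬ (s = 0 ∧ t = m - 1) → ¬ (s = m - 1 ∧ t = 0) →
      u'.R s t = u.R s t := fun s hs t ht h1 h2 => (hag s hs t ht h1 h2).symm
  have hanti := (h.pos u hu).2.1 0 (by omega) (m - 1) (by omega) (by omega)
  have hanti' := (h.pos u' hu').2.1 0 (by omega) (m - 1) (by omega) (by omega)
  rcases Bool.eq_false_or_eq_true (u.R 0 (m - 1)) with a1 | a1 <;>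
  rcases Bool.eq_false_or_eq_true (u.R (m - 1) 0) with a2 | a2 <;>
  rcases Bool.eq_false_or_eq_true (u'.R 0 (m - 1)) with a3 | a3 <;>
  rcases Bool.eq_false_or_eq_true (u'.R (m - 1) 0) with a4 | a4
  all_goals first
    | exact core2 C b hb h m hm u u' hu hu' hn hn' hag a1 a2 (Or.inl a3)
    | exact core2 C b hb h m hm u u' hu hu' hn hn' hag a1 a2 (Or.inr a4)
    | exact core2 C b hb h m hm u' u hu' hu hn' hn hag' a3 a4 (Or.inl a1)
    | exact core2 C b hb h m hm u' u hu' hu hn' hn hag' a3 a4 (Or.inr a2)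
    | (exfalso; simp_all; done)
    | skip
  all_goals
    have hp : Pos (cut u m) := cutPos m u u' (by omega) (h.pos u hu) (h.pos u' hu') hn hn' hag
      (by first | exact Or.inl a1 | exact Or.inr a3) (by first | exact Or.inl a2 | exact Or.inr a4)
    have hc : cut u m ∈ C := by
      refine h.loc _ hp (by change b ≤ u.n; omega) ?_
      intro k hk
      change k + b ≤ u.n at hk
      refine ⟨u, hu, k, hk, ?_⟩
      intro s hs t ht
      rw [Bool.eq_iff_iff, cutR]
      constructor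
      · intro h5
        exact h5.1
      · intro h5
        exact ⟨h5, by omega⟩
    refine core2 C b hb h m hm (cut u m) u hc hu hn hn ?_ ?_ ?_ (by
      first | exact Or.inl a1 | exact Or.inr a2)
    · intro s hs t ht h1 h2
      rw [Bool.eq_iff_iff, cutR]
      constructor
      · intro h5
        exact h5.1
      · intro h5
        refine ⟨h5, ?_⟩
        rintro (h6 | h6)
        · exact h1 h6
        · exact h2 h6
    · simp [cut]
    · simp [cut]

theorem final (hres : S_QRES) (hglue : S_QGLUE) (hloc : S_QLOC) : S_QPUMP := by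
  intro B b hS m hm hF
  have hcl : Cl (Av Pos B) b :=
    ⟨fun x hx => hx.1, fun x hx hb hk => hloc B b hS x hx hb hk,
      fun x hx z hz hbx hbz hw => hglue B b hS b le_rfl x hx z hz hbx hbz hw, (hres B).2⟩
  exact all (Av Pos B) b hS.1 hcl m hm hF

end Pool.Agent.R474.CE.QPUMP

theorem Pool.Agent.R474.CE.QPUMP (hres : Pool.Agent.R474.CE.S_QRES)
    (hglue : Pool.Agent.R474.CE.S_QGLUE) (hloc : Pool.Agent.R474.CE.S_QLOC) :
    Pool.Agent.R474.CE.S_QPUMP :=
  _root_.Pool.Agent.R474.CE.QPUMP.final hres hglue hloc
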